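import Pool.Agent.Helper57.QZ.Stmts2
import Pool.Agent.Helper98.QZ.TS

/-!
# Level sets of `|ζ|`, `|ζ'|` and `Re e^{-iθ} ζ'/ζ`, with `N` growing (row TS2)
-/

set_option autoImplicit false

namespace Pool.Agent.Helper46.Q2

open MeasureTheory Set Filter Topology Pool.Agent.Helper57.QZ
open Pool.Agent.Helper98.QZ (p2 p3 p4 vol_le le' lf)

/-- from logarithms to factors -/
lemma fac {z Z : ℂ} {e : ℝ} (he0 : 0 < e) (he : e ≤ 1 / 16) (hz : z ≠ 0) (hZ : Z ≠ 0)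
    (h : |Real.log ‖z‖ - Real.log ‖Z‖| ≤ e / 2) :
    (1 - e) * ‖Z‖ ≤ ‖z‖ ∧ ‖z‖ ≤ (1 + e) * ‖Z‖ := by
  have hz0 : 0 < ‖z‖ := norm_pos_iff.2 hz
  have hZ0 : 0 < ‖Z‖ := norm_pos_iff.2 hZ
  rw [abs_le] at h
  have h1 : ‖z‖ = Real.exp (Real.log ‖z‖ - Real.log ‖Z‖) * ‖Z‖ := by
    rw [Real.exp_sub, Real.exp_log hz0, Real.exp_log hZ0]
    field_simp
  have h2 : 1 - e ≤ Real.exp (Real.log ‖z‖ - Real.log ‖Z‖) := by
    have := Real.add_one_le_exp (Real.log ‖z‖ - Real.log ‖Z‖)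
    linarith [h.1]
  have h3 : Real.exp (Real.log ‖z‖ - Real.log ‖Z‖) ≤ 1 + e := by
    have h4 : Real.exp (Real.log ‖z‖ - Real.log ‖Z‖) ≤ Real.exp (e / 2) :=
      Real.exp_le_exp.2 h.2
    have h5 : 1 - e / 2 ≤ Real.exp (-(e / 2)) := by
      have := Real.add_one_le_exp (-(e / 2))
      linarith
    have h6 : Real.exp (e / 2) * Real.exp (-(e / 2)) = 1 := by
      rw [← Real.exp_add, add_neg_cancel, Real.exp_zero]
    have h7 : 0 < Real.exp (e / 2) := Real.exp_pos _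
    have h8 : Real.exp (e / 2) * (1 - e / 2) ≤ 1 := by
      have h61 := mul_le_mul_of_nonneg_left h5 h7.le
      rwa [h6] at h61
    have h9 : Real.exp (e / 2) ≤ 1 + e := by
      by_contra hc
      have hc' := not_le.1 hc
      nlinarith [mul_lt_mul_of_pos_right hc' (by linarith : (0:ℝ) < 1 - e / 2),
        mul_nonneg he0.le (by linarith : (0:ℝ) ≤ 1 / 16 - e)]
    exact h4.trans h9
  rw [h1]
  exact ⟨mul_le_mul_of_nonneg_right h2 hZ0.le, mul_le_mul_of_nonneg_right h3 hZ0.le⟩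

section arith

variable {z w Z W : ℂ} {e A B θ : ℝ}

lemma la (he0 : 0 < e) (he : e ≤ 1 / 16) (hA : 1 ≤ A)
    (h : (1 - e) * ‖Z‖ ≤ ‖z‖) (hZ : (1 - e) * A ≤ ‖Z‖) : (1 - 8 * e) * A ≤ ‖z‖ := by
  nlinarith [mul_le_mul_of_nonneg_left hZ (by linarith : (0:ℝ) ≤ 1 - e),
    mul_nonneg he0.le (by linarith : (0:ℝ) ≤ A),
    mul_nonneg (mul_nonneg he0.le he0.le) (by linarith : (0:ℝ) ≤ A)]

lemma lb (he0 : 0 < e) (he : e ≤ 1 / 16) (hA : 1 ≤ A) (hB : 1 ≤ B) (hz : z ≠ 0)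
    (h : (1 - e) * ‖Z‖ ≤ ‖z‖) (h2 : ‖w / z - W‖ ≤ e) (hZ : (1 - e) * A ≤ ‖Z‖)
    (hW : (1 - e) * B ≤ ‖W‖) : (1 - 8 * e) * (A * B) ≤ ‖w‖ := by
  have h' := (p2 h2).1
  have hw : ‖w‖ = ‖w / z‖ * ‖z‖ := by rw [← norm_mul, div_mul_cancel₀ _ hz]
  have hz1 : (1 - 3 * e) * A ≤ ‖z‖ := by
    nlinarith [mul_le_mul_of_nonneg_left hZ (by linarith : (0:ℝ) ≤ 1 - e),
      mul_nonneg he0.le (by linarith : (0:ℝ) ≤ A),
      mul_nonneg (mul_nonneg he0.le he0.le) (by linarith : (0:ℝ) ≤ A)]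
  have hw1 : (1 - 3 * e) * B ≤ ‖w / z‖ := by
    nlinarith [mul_nonneg he0.le (by linarith : (0:ℝ) ≤ B - 1)]
  rw [hw]
  have h3 : ((1 - 3 * e) * B) * ((1 - 3 * e) * A) ≤ ‖w / z‖ * ‖z‖ :=
    mul_le_mul hw1 hz1 (mul_nonneg (by linarith) (by linarith)) (norm_nonneg _)
  have hAB : 0 ≤ A * B := mul_nonneg (by linarith) (by linarith)
  nlinarith [mul_nonneg he0.le hAB, mul_nonneg (mul_nonneg he0.le he0.le) hAB]

lemma lc (he0 : 0 < e) (he : e ≤ 1 / 16) (hA : 1 ≤ A)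
    (h : ‖z‖ ≤ (1 + e) * ‖Z‖) (hZ : ‖Z‖ < (1 + e) * A) : ‖z‖ < (1 + 8 * e) * A := by
  have h3 : (1 + e) * ‖Z‖ < (1 + e) * ((1 + e) * A) :=
    mul_lt_mul_of_pos_left hZ (by linarith)
  nlinarith [mul_nonneg he0.le (by linarith : (0:ℝ) ≤ A),
    mul_nonneg (mul_nonneg he0.le (by linarith : (0:ℝ) ≤ 1 / 16 - e)) (by linarith : (0:ℝ) ≤ A)]

lemma ld (he0 : 0 < e) (he : e ≤ 1 / 16) (hA : 1 ≤ A) (hB : 1 ≤ B) (hz : z ≠ 0)
    (h : ‖z‖ ≤ (1 + e) * ‖Z‖) (h2 : ‖w / z - W‖ ≤ e) (hZ : ‖Z‖ < (1 + e) * A)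
    (hW : ‖W‖ < (1 + e) * B) : ‖w‖ < (1 + 8 * e) * (A * B) := by
  have h' := (p2 h2).2
  have hw : ‖w‖ = ‖w / z‖ * ‖z‖ := by rw [← norm_mul, div_mul_cancel₀ _ hz]
  have h3 : (1 + e) * ‖Z‖ < (1 + e) * ((1 + e) * A) :=
    mul_lt_mul_of_pos_left hZ (by linarith)
  have hz1 : ‖z‖ ≤ (1 + 4 * e) * A := by
    nlinarith [mul_nonneg he0.le (by linarith : (0:ℝ) ≤ A),
      mul_nonneg (mul_nonneg he0.le (by linarith : (0:ℝ) ≤ 1 / 16 - e)) (by linarith : (0:ℝ) ≤ A)]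
  have hw1 : ‖w / z‖ < (1 + 3 * e) * B := by
    nlinarith [mul_nonneg he0.le (by linarith : (0:ℝ) ≤ B - 1)]
  rw [hw]
  have hzp : 0 < ‖z‖ := norm_pos_iff.2 hz
  have h4 : ‖w / z‖ * ‖z‖ < ((1 + 3 * e) * B) * ‖z‖ := mul_lt_mul_of_pos_right hw1 hzp
  have h5 : ((1 + 3 * e) * B) * ‖z‖ ≤ ((1 + 3 * e) * B) * ((1 + 4 * e) * A) :=
    mul_le_mul_of_nonneg_left hz1 (mul_nonneg (by linarith) (by linarith))
  have hAB : 0 ≤ A * B := mul_nonneg (by linarith) (by linarith)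
  nlinarith [mul_nonneg he0.le hAB,
    mul_nonneg (mul_nonneg he0.le (by linarith : (0:ℝ) ≤ 1 / 16 - e)) hAB]

end arith

/-- the Euler product does not vanish -/
lemma Zy_ne {y : ℕ} {σ : ℝ} (hσ : 0 < σ) (φ : Pr y → ℝ) : Zy y σ φ ≠ 0 := by
  unfold Zy
  refine Finset.prod_ne_zero_iff.2 fun p _ => inv_ne_zero ?_
  intro h
  have h1 : Complex.exp (-((φ p : ℂ) * Complex.I)) * (aa σ p : ℂ) = 1 := (sub_eq_zero.1 h).symm
  have h2 := congrArg norm h1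
  rw [norm_mul, Pool.Agent.Helper98.QZ.exp_norm, one_mul, norm_one, Complex.norm_real,
    Real.norm_eq_abs] at h2
  have hp : Nat.Prime (p : ℕ) := Nat.prime_of_mem_primesBelow p.2
  have h3 : aa σ (p : ℕ) < 1 := by
    unfold aa
    refine Real.rpow_lt_one_of_one_lt_of_neg ?_ (by linarith)
    exact_mod_cast hp.one_lt
  have h4 : 0 ≤ aa σ (p : ℕ) := Real.rpow_nonneg (Nat.cast_nonneg _) _
  rw [abs_of_nonneg h4] at h2
  linarith

/-- from a large level set to a large level set -/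
lemma lower {T N : ℝ} (hT : 0 < T) (hN : 1 ≤ N) {S : Set ℝ} {f : ℝ → ℝ} {b : ℝ} {E : Set ℝ}
    (hE : E ⊆ Icc T (2 * T)) (hEv : volume.real E ≤ T / (8 * N))
    (hg : 2 / N * T ≤ volume.real S) (hS : S ⊆ Icc T (2 * T))
    (hgf : ∀ t ∈ S, t ∉ E → b ≤ f t) :
    T / N ≤ volume.real {t : ℝ | t ∈ Icc T (2 * T) ∧ b ≤ f t} := by
  have h1 := vol_le (S := S) (E := E)
    (L := {t : ℝ | t ∈ Icc T (2 * T) ∧ b ≤ f t}) (T := T) (by
      intro t ht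
      by_cases hE : t ∈ E
      · exact Or.inl hE
      · exact Or.inr ⟨hS ht, hgf t ht hE⟩) hE (fun t ht => ht.1)
  have hN0 : 0 < N := by linarith
  have h3 : 2 / N * T - T / (8 * N) = (15 / 8) * (T / N) := by
    field_simp
    ring
  have h4 : 0 < T / N := div_pos hT hN0
  linarith

/-- the exceptional set -/
lemma exc {κ T N : ℝ} (hκ : κ ∈ Ioo (0:ℝ) 1) (hT0 : 0 < T) (hN : 1 ≤ N)
    (hT : Real.exp ((4:ℝ) ^ (2 / κ)) ≤ T)
    (hNT : N ≤ Real.exp (Real.log T ^ (1 - κ))) :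
    T * Real.exp (-(Real.log T ^ (1 - κ / 2))) ≤ T / (8 * N) := by
  have hκ0 := hκ.1
  have hκ1 := hκ.2
  set L := Real.log T with hL
  have hL1 : (4:ℝ) ^ (2 / κ) ≤ L := (Real.le_log_iff_exp_le hT0).2 hT
  have h40 : (0:ℝ) < (4:ℝ) ^ (2 / κ) := Real.rpow_pos_of_pos (by norm_num) _
  have h41 : (1:ℝ) ≤ (4:ℝ) ^ (2 / κ) := Real.one_le_rpow (by norm_num) (by positivity)
  have hL2 : 1 ≤ L := h41.trans hL1
  have hL0 : 0 < L := by linarith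
  have h5 : (4:ℝ) ≤ L ^ (κ / 2) := by
    have h6 : ((4:ℝ) ^ (2 / κ)) ^ (κ / 2) = 4 := by
      rw [← Real.rpow_mul (by norm_num)]
      have h7 : 2 / κ * (κ / 2) = 1 := by field_simp
      rw [h7, Real.rpow_one]
    rw [← h6]
    exact Real.rpow_le_rpow h40.le hL1 (by linarith)
  have h6 : L ^ (1 - κ / 2) = L ^ (1 - κ) * L ^ (κ / 2) := by
    rw [← Real.rpow_add hL0]
    congr 1
    ring
  have h7 : 1 ≤ L ^ (1 - κ) := Real.one_le_rpow hL2 (by linarith)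
  have h8 : L ^ (1 - κ) + 3 ≤ L ^ (1 - κ / 2) := by
    rw [h6]
    nlinarith
  have h9 : (8:ℝ) ≤ Real.exp 3 := by
    have h10 : Real.exp 3 = Real.exp 1 ^ (3:ℕ) := by
      rw [← Real.exp_nat_mul]
      norm_num
    rw [h10]
    have h11 : (2:ℝ) ≤ Real.exp 1 := by
      have := Real.add_one_le_exp (1:ℝ)
      linarith
    calc (8:ℝ) = 2 ^ (3:ℕ) := by norm_num
      _ ≤ Real.exp 1 ^ (3:ℕ) := pow_le_pow_left₀ (by norm_num) h11 3
  have h12 : 8 * N ≤ Real.exp (L ^ (1 - κ / 2)) := by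
    calc 8 * N ≤ Real.exp 3 * Real.exp (L ^ (1 - κ)) :=
        mul_le_mul h9 hNT (by linarith) (Real.exp_pos _).le
      _ = Real.exp (3 + L ^ (1 - κ)) := (Real.exp_add _ _).symm
      _ ≤ Real.exp (L ^ (1 - κ / 2)) := Real.exp_le_exp.2 (by linarith)
  rw [Real.exp_neg, div_eq_mul_inv]
  exact mul_le_mul_of_nonneg_left (inv_anti₀ (by linarith) h12) hT0.le

theorem ts2_of (h1 : ST_RT) (h2 : ST_EX2) : ST_TS2 := by
  intro ε hε η hη κ hκ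
  obtain ⟨hη0, hη1⟩ := hη
  set e : ℝ := η / 8 with he
  have he0 : 0 < e := by rw [he]; positivity
  have he1 : e ≤ 1 / 16 := by rw [he]; linarith
  have hηe : η = 8 * e := by rw [he]; ring
  obtain ⟨N₀, hN₀, hRT⟩ := h1 ε hε e ⟨he0, by linarith⟩ κ hκ
  obtain ⟨A₀, hA₀, hEX⟩ := h2 ε hε (e / 2) ⟨by linarith, by linarith⟩ (κ / 2)
    ⟨by linarith [hκ.1], by linarith [hκ.2]⟩
  obtain ⟨T₁, hT₁, hEX'⟩ := hEX A₀ le_rfl
  obtain ⟨T₂, hT₂, hRT'⟩ := hRT A₀ hA₀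
  refine ⟨N₀, max (max T₁ T₂) (Real.exp ((4:ℝ) ^ (2 / κ))), hN₀,
    hT₁.trans ((le_max_left _ _).trans (le_max_left _ _)), ?_⟩
  intro T hT N hN hNT σ hσ
  have hTT₁ : T₁ ≤ T := ((le_max_left _ _).trans (le_max_left _ _)).trans hT
  have hTT₂ : T₂ ≤ T := ((le_max_right _ _).trans (le_max_left _ _)).trans hT
  have hTT₃ : Real.exp ((4:ℝ) ^ (2 / κ)) ≤ T := (le_max_right _ _).trans hT
  have hT0 : 0 < T := by linarith
  have hN1 : 1 ≤ N := hN₀.trans hN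
  have hNp : 0 < N := by linarith
  have hσ0 : 0 < σ := by linarith [hσ.1, hε.1]
  obtain ⟨A, B, hA, hB, hR1, hR2, hR3, hR4⟩ := hRT' T hTT₂ N hN hNT σ hσ
  obtain ⟨E, hE, hEv, hEp⟩ := hEX' T hTT₁ σ hσ
  have hEv' : volume.real E ≤ T / (8 * N) := hEv.trans (exc hκ hT0 hN1 hTT₃ hNT)
  have hB1 : 1 ≤ B := by
    refine le_trans ?_ hB
    rw [le_div_iff₀ he0]
    linarith
  have hf : ∀ t ∈ Icc T (2 * T), t ∉ E →
      (1 - e) * ‖Zy (zA A₀ T) σ (lin (zA A₀ T) t)‖ ≤ ‖riemannZeta (pt σ t)‖ ∧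
      ‖riemannZeta (pt σ t)‖ ≤ (1 + e) * ‖Zy (zA A₀ T) σ (lin (zA A₀ T) t)‖ := fun t ht hEt =>
    fac he0 he1 (hEp t ht hEt).1 (Zy_ne hσ0 _) (hEp t ht hEt).2.1
  have hq : ∀ t ∈ Icc T (2 * T), t ∉ E →
      ‖deriv riemannZeta (pt σ t) / riemannZeta (pt σ t) -
        Wy (zA A₀ T) σ (lin (zA A₀ T) t)‖ ≤ e := fun t ht hEt =>
    (hEp t ht hEt).2.2.trans (by linarith)
  have hTN : 0 < T / N := div_pos hT0 hNp
  have h8 : T / (8 * N) = (1 / 8) * (T / N) := by field_simp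
  refine ⟨A, B, hA, hB1, ?_, ?_, ?_, ?_, ?_⟩
  · refine lower hT0 hN1 hE hEv' hR1 (fun t ht => ht.1) fun t ht hEt => ?_
    rw [hηe]
    exact la he0 he1 hA (hf t ht.1 hEt).1 ht.2.1
  · have h5 := vol_le (S := {t : ℝ | t ∈ Icc T (2 * T) ∧ (1 + η) * A ≤ ‖riemannZeta (pt σ t)‖})
      (E := E) (L := {t : ℝ | t ∈ Icc T (2 * T) ∧
        (1 + e) * A ≤ ‖Zy (zA A₀ T) σ (lin (zA A₀ T) t)‖}) (T := T) (by
        rintro t ⟨ht, h⟩
        by_cases hEt : t ∈ E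
        · exact Or.inl hEt
        · refine Or.inr ⟨ht, ?_⟩
          by_contra hc
          have := lc he0 he1 hA (hf t ht hEt).2 (not_le.1 hc)
          rw [hηe] at h
          linarith) hE (fun t ht => ht.1)
    linarith
  · refine lower hT0 hN1 hE hEv' hR1 (fun t ht => ht.1) fun t ht hEt => ?_
    rw [hηe]
    exact lb he0 he1 hA hB1 (hEp t ht.1 hEt).1 (hf t ht.1 hEt).1 (hq t ht.1 hEt) ht.2.1 ht.2.2
  · have h5 := vol_le (S := {t : ℝ | t ∈ Icc T (2 * T) ∧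
        (1 + η) * (A * B) ≤ ‖deriv riemannZeta (pt σ t)‖})
      (E := E) (L := {t : ℝ | t ∈ Icc T (2 * T) ∧
          (1 + e) * A ≤ ‖Zy (zA A₀ T) σ (lin (zA A₀ T) t)‖} ∪
        {t : ℝ | t ∈ Icc T (2 * T) ∧
          (1 + e) * B ≤ ‖Wy (zA A₀ T) σ (lin (zA A₀ T) t)‖}) (T := T) (by
        rintro t ⟨ht, h⟩
        by_cases hEt : t ∈ E
        · exact Or.inl hEt
        · refine Or.inr ?_
          by_cases hc : (1 + e) * A ≤ ‖Zy (zA A₀ T) σ (lin (zA A₀ T) t)‖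
          · exact Or.inl ⟨ht, hc⟩
          · refine Or.inr ⟨ht, ?_⟩
            by_contra hd
            have := ld he0 he1 hA hB1 (hEp t ht hEt).1 (hf t ht hEt).2 (hq t ht hEt)
              (not_le.1 hc) (not_le.1 hd)
            rw [hηe] at h
            linarith) hE (union_subset (fun t ht => ht.1) (fun t ht => ht.1))
    have h6 := measureReal_union_le (μ := (volume : Measure ℝ))
      {t : ℝ | t ∈ Icc T (2 * T) ∧ (1 + e) * A ≤ ‖Zy (zA A₀ T) σ (lin (zA A₀ T) t)‖}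
      {t : ℝ | t ∈ Icc T (2 * T) ∧ (1 + e) * B ≤ ‖Wy (zA A₀ T) σ (lin (zA A₀ T) t)‖}
    linarith
  · intro θ
    constructor
    · refine lower hT0 hN1 hE hEv' (hR4 θ) (fun t ht => ht.1) fun t ht hEt => ?_
      rw [hηe]
      refine lf he0 hB1 (hq t ht.1 hEt) (le_trans ?_ ht.2)
      exact mul_le_mul_of_nonneg_right (by linarith) (by linarith)
    · have h5 := vol_le (S := {t : ℝ | t ∈ Icc T (2 * T) ∧ (1 + η) * B ≤
          (Complex.exp (-((θ : ℂ) * Complex.I)) *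
            (deriv riemannZeta (pt σ t) / riemannZeta (pt σ t))).re})
        (E := E) (L := {t : ℝ | t ∈ Icc T (2 * T) ∧
          (1 + e) * B ≤ ‖Wy (zA A₀ T) σ (lin (zA A₀ T) t)‖})
        (T := T) (by
          rintro t ⟨ht, h⟩
          by_cases hEt : t ∈ E
          · exact Or.inl hEt
          · refine Or.inr ⟨ht, ?_⟩
            by_contra hd
            have hd' : ‖Wy (zA A₀ T) σ (lin (zA A₀ T) t)‖ < (1 + 2 * e) * B :=
              (not_le.1 hd).trans_le (mul_le_mul_of_nonneg_right (by linarith) (by linarith))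
            have := le' (θ := θ) he0 hB1 (hq t ht hEt) hd'
            rw [hηe] at h
            linarith) hE (fun t ht => ht.1)
      linarith

end Pool.Agent.Helper46.Q2
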